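import Mathlib.Analysis.CStarAlgebra.Module.Constructions
import Mathlib.Analysis.InnerProductSpace.l2Space
import Pool.Agent.MP_54e5d7_al.atc.fin.GlueA
import Pool.Agent.MP_54e5d7_al.atc.ker.Trace
import Pool.Agent.MP_54e5d7_al.atc.tr.Core

-- ======== part 0: formerly Pool.Agent.MP_54e5d7_al.atc.fin.GlueC
section MrgPart0

/-!
PROJECT ATC, row GLUE, part C: the chart and the line bundle.
-/

set_option autoImplicit false

open scoped ComplexConjugate ContDiff Topology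
open Set Filter

namespace Pool.Agent.MP_54e5d7_al.Atc.Glue

noncomputable section

open Pool.Agent.MP54

theorem closure_Bl (r : ℝ) : closure (Bl r) ⊆ {z | nsq z ≤ r} :=
  closure_minimal (fun z hz => le_of_lt (show nsq z < r from hz)) (isClosed_le continuous_nsq continuous_const)

theorem closure_Bl_sub {r r' : ℝ} (h : r < r') : closure (Bl r) ⊆ Bl r' :=
  fun _ hz => lt_of_le_of_lt (closure_Bl r hz) h

theorem isCompact_closure_Bl (r : ℝ) : IsCompact (closure (Bl r)) :=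
  (isCompact_nsq_le r).of_isClosed_subset isClosed_closure (closure_Bl r)

/-- the radii -/
structure Rad (Γ₀ : Subgroup SU21) (r1 r2 r : ℝ) : Prop where
  lat : Lat Γ₀
  h12 : r1 < r2
  h2 : r2 < r
  h : r < 1
  cov : ∀ z ∈ B, ∃ γ ∈ Γ₀, act γ z ∈ Bl r1

variable {Γ₀ : Subgroup SU21} {r1 r2 r : ℝ}

theorem Rad.subB (R : Rad Γ₀ r1 r2 r) : Bl r ⊆ B := Bl_mono R.h.le

theorem Rad.sub2 (R : Rad Γ₀ r1 r2 r) : Bl r2 ⊆ Bl r := Bl_mono R.h2.le

theorem Rad.sub1 (R : Rad Γ₀ r1 r2 r) : Bl r1 ⊆ Bl r2 := Bl_mono R.h12.le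

/-- the chart -/
def Rad.chart (R : Rad Γ₀ r1 r2 r) : PDE.Chart ↥Γ₀ where
  Om := B
  U1 := Bl r1
  U2 := Bl r2
  act g := act g
  oOm := isOpen_Bl 1
  o1 := isOpen_Bl r1
  o2 := isOpen_Bl r2
  c1 := isCompact_closure_Bl r1
  s12 := closure_Bl_sub R.h12
  c2 := isCompact_closure_Bl r2
  s2 := closure_Bl_sub (R.h2.trans R.h)
  maps g _ hz := act_mem g hz
  one z _ := act_one z
  mul g h _ hz := act_mul g h hz
  hol g := differentiableOn_act g
  cover z hz := by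
    obtain ⟨γ, hγ, h⟩ := R.cov z hz
    exact ⟨⟨γ, hγ⟩, h⟩
  fin := by
    refine ((R.lat.finite_meet (R.h2.trans R.h)).preimage Subtype.val_injective.injOn).subset ?_
    exact fun g hg => ⟨g.2, hg⟩

/-- the potential of the invariant metric -/
def chi (z : C2) : ℝ := -Real.log (1 - nsq z)

theorem contDiff_nsq : ContDiff ℝ ∞ nsq :=
  (contDiff_fst.norm_sq ℂ).add (contDiff_snd.norm_sq ℂ)

theorem contDiffOn_chi : ContDiffOn ℝ ∞ chi B :=
  ((contDiffOn_const.sub contDiff_nsq.contDiffOn).log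
    fun _ hz => (sub_pos.2 hz).ne').neg

theorem fderiv2_add {V : Set C2} (hV : IsOpen V) {f g : C2 → ℝ} (hf : ContDiffOn ℝ ∞ f V)
    (hg : ContDiffOn ℝ ∞ g V) (t : ℝ) {z : C2} (hz : z ∈ V) :
    fderiv ℝ (fderiv ℝ (fun y => f y + t * g y)) z =
      fderiv ℝ (fderiv ℝ f) z + t • fderiv ℝ (fderiv ℝ g) z := by
  have hf1 := (contDiffOn_infty_iff_fderiv_of_isOpen hV).1 hf
  have hg1 := (contDiffOn_infty_iff_fderiv_of_isOpen hV).1 hg
  have e : fderiv ℝ (fun y => f y + t * g y) =ᶠ[𝓝 z] fun y => fderiv ℝ f y + t • fderiv ℝ g y := by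
    filter_upwards [hV.mem_nhds hz] with y hy
    exact ((hf1.1.differentiableAt (hV.mem_nhds hy)).hasFDerivAt.add
      ((hg1.1.differentiableAt (hV.mem_nhds hy)).hasFDerivAt.const_mul t)).fderiv
  rw [e.fderiv_eq]
  have a := ((hf1.2.differentiableOn (by simp)).differentiableAt (hV.mem_nhds hz)).hasFDerivAt
  have b := ((hg1.2.differentiableOn (by simp)).differentiableAt (hV.mem_nhds hz)).hasFDerivAt
  exact (a.add (b.const_smul t)).fderiv

theorem norm_sq_le_nsq (w : C2) : ‖w‖ ^ 2 ≤ nsq w := by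
  unfold nsq
  rw [Prod.norm_def]
  rcases le_total ‖w.1‖ ‖w.2‖ with h | h
  · rw [max_eq_right h]; nlinarith [sq_nonneg ‖w.1‖]
  · rw [max_eq_left h]; nlinarith [sq_nonneg ‖w.2‖]

theorem levi_chi {r : ℝ} (hr : r < 1) :
    ∃ K : ℝ, 0 ≤ K ∧ ∀ z ∈ Bl r, ∀ w, levi chi z w ≤ K * nsq w := by
  have h1 := ((contDiffOn_infty_iff_fderiv_of_isOpen (isOpen_Bl 1)).1 contDiffOn_chi).2
  have h2 := ((contDiffOn_infty_iff_fderiv_of_isOpen (isOpen_Bl 1)).1 h1).2.continuousOn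
  obtain ⟨K, hK⟩ := (isCompact_closure_Bl r).exists_bound_of_continuousOn
    (h2.mono (closure_Bl_sub hr))
  refine ⟨max K 0, le_max_right _ _, fun z hz w => ?_⟩
  have hz' : ‖fderiv ℝ (fderiv ℝ chi) z‖ ≤ max K 0 :=
    (hK z (subset_closure hz)).trans (le_max_left _ _)
  have key : ∀ v : C2, fderiv ℝ (fderiv ℝ chi) z v v ≤ max K 0 * ‖v‖ ^ 2 := fun v => by
    have a := (fderiv ℝ (fderiv ℝ chi) z).le_opNorm₂ v v
    have b : ‖fderiv ℝ (fderiv ℝ chi) z‖ * ‖v‖ * ‖v‖ ≤ max K 0 * ‖v‖ * ‖v‖ := by gcongr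
    have c := le_abs_self (fderiv ℝ (fderiv ℝ chi) z v v)
    rw [Real.norm_eq_abs] at a
    nlinarith
  have a := key w
  have b := key (Complex.I • w)
  rw [norm_smul, Complex.norm_I, one_mul] at b
  have c := norm_sq_le_nsq w
  have d := mul_le_mul_of_nonneg_left c (le_max_right K 0)
  have e := mul_nonneg (le_max_right K 0) (nsq_nonneg w)
  unfold levi
  linarith

theorem neg_weight {r2 r : ℝ} (h2 : r2 ≤ r) (h : r ≤ 1) {K c0 t : ℝ} (hK0 : 0 ≤ K)
    (hK : ∀ z ∈ Bl r2, ∀ w, levi chi z w ≤ K * nsq w) {ψ : C2 → ℝ} (hψ : ContDiffOn ℝ ∞ ψ (Bl r))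
    (hl : ∀ z ∈ Bl r, ∀ w, levi ψ z w ≤ -(c0 + 6 * K) * nsq w) (ht0 : 0 ≤ t) (ht : t ≤ 6) :
    PDE.Neg (fun z => ψ z + t * chi z) c0 (Bl r2) := by
  intro z hz w
  have e := fderiv2_add (isOpen_Bl r) hψ (contDiffOn_chi.mono (Bl_mono h)) t (Bl_mono h2 hz)
  have a := hl z (Bl_mono h2 hz) w
  have b := hK z hz w
  have c := mul_nonneg hK0 (nsq_nonneg w)
  have d := mul_le_mul_of_nonneg_left b ht0
  have f := mul_le_mul_of_nonneg_right ht c
  unfold levi at a d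
  unfold PDE.lev
  rw [e]
  simp only [add_apply, smul_apply, smul_eq_mul]
  change _ ≤ -c0 * nsq w
  linarith

variable {n : ℕ} {U : Type} [Group U] {C : Cover n U} {Γ : Subgroup SU21} {G : Type} [Group G]
  {Q : Quo C Γ G} {X : Set V3} {m : V3 → ℕ} {S : Finset V3} {J : Type} [MulAction ↥Γ₀ J]

theorem norm_phi_pow (hn : 0 < n) (s : ℕ) (a : U) {z : C2} (hz : z ∈ B) :
    ‖C.φ a z ^ s‖ ^ 2 * (1 - nsq (act (C.p a) z)) ^ ((s : ℝ) / n) = (1 - nsq z) ^ ((s : ℝ) / n) := by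
  have h := C.norm_sl hn s (fun _ => 1) a hz
  rw [C.sl_of_mem s _ a hz, norm_div, norm_one, one_pow, one_mul] at h
  have h0 : ‖C.φ a z ^ s‖ ≠ 0 := norm_ne_zero_iff.2 (pow_ne_zero _ (C.φ_ne_zero hn a hz))
  rw [← h]
  field_simp

theorem exp_chi (t : ℝ) {z : C2} (hz : z ∈ B) : Real.exp (-(t * chi z)) = (1 - nsq z) ^ t := by
  rw [Real.rpow_def_of_pos (sub_pos.2 hz), chi]
  congr 1
  ring

/-- the line bundle `L^s(-D)` -/
def bundle (R : Rad Γ₀ r1 r2 r) (D : Div Γ₀ X m r S) (I : Idx Q Γ₀ J) (hn : 0 < n) (s : ℕ)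
    (ψ : C2 → ℝ) (hψ : ContDiffOn ℝ ∞ ψ (Bl r))
    (hv : ∀ g ∈ Γ₀, ∀ z ∈ Bl r, act g z ∈ Bl r →
      Real.exp (ψ (act g z)) = Real.exp (ψ z) * ‖vg S m g z‖ ^ 2) : PDE.Bundle R.chart J where
  a j g z := C.φ (I.e j g) z ^ s * vg S m g z
  psi z := ψ z + (s : ℝ) / n * chi z
  hol j g := (((C.hol _).mono fun _ hz => R.subB (R.sub2 hz.1)).pow s).mul
    ((D.vg_hol g.2).mono fun _ hz => R.sub2 hz.1)
  coc j g h z hz hhz _ := by
    have e := D.vg_coc g.2 h.2 (R.sub2 hz) (R.sub2 hhz)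
    change C.φ (I.e j (g * h)) z ^ s * vg S m (g * h) z =
      C.φ (I.e (h • j) g) (act h z) ^ s * vg S m g (act h z) * (C.φ (I.e j h) z ^ s * vg S m h z)
    rw [e, I.coc, C.mul _ _ z (R.subB (R.sub2 hz)), I.pe]
    ring
  smooth := (hψ.mono R.sub2).add
    (contDiffOn_const.mul (contDiffOn_chi.mono fun _ hz => R.subB (R.sub2 hz)))
  bdd := by
    have h : ContinuousOn (fun z => ψ z + (s : ℝ) / n * chi z) (Bl r) :=
      hψ.continuousOn.add (continuousOn_const.mul (contDiffOn_chi.continuousOn.mono R.subB))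
    obtain ⟨M, hM⟩ := (isCompact_closure_Bl r2).exists_bound_of_continuousOn
      (h.mono (closure_Bl_sub R.h2))
    exact ⟨M, fun z hz => hM z (subset_closure hz)⟩
  inv j g z hz := by
    have hzB : z ∈ B := R.subB (R.sub2 hz.1)
    have a := hv g g.2 z (R.sub2 hz.1) (R.sub2 hz.2)
    have b := norm_phi_pow (C := C) hn s (I.e j g) hzB
    rw [I.pe] at b
    change Real.exp (-(ψ (act g z) + (s : ℝ) / n * chi (act g z))) *
      ‖C.φ (I.e j g) z ^ s * vg S m g z‖ ^ 2 = Real.exp (-(ψ z + (s : ℝ) / n * chi z))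
    rw [neg_add, neg_add, Real.exp_add, Real.exp_add, exp_chi _ hzB, exp_chi _ (act_mem _ hzB),
      ← b, norm_mul, mul_pow, Real.exp_neg, Real.exp_neg]
    have p1 := Real.exp_pos (ψ (act g z))
    have p2 := Real.exp_pos (ψ z)
    field_simp
    rw [a]
    ring

/-- the slash action is uniformly bounded on a smaller ball -/
theorem exists_sl_le (C : Cover n U) (hn : 0 < n) (s : ℕ) {r : ℝ} (hr : r < 1) :
    ∃ κ : ℝ, 0 ≤ κ ∧ ∀ (f : C2 → ℂ) (a : U), ∀ z ∈ Bl r,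
      ‖C.sl s f a z‖ ≤ κ * ‖f (act (C.p a) z)‖ := by
  have ht : (0 : ℝ) ≤ (s : ℝ) / n := by positivity
  have h0 : 0 < (1 - r) ^ ((s : ℝ) / n) := Real.rpow_pos_of_pos (sub_pos.2 hr) _
  refine ⟨Real.sqrt ((1 - r) ^ ((s : ℝ) / n))⁻¹, Real.sqrt_nonneg _, fun f a z hz => ?_⟩
  have hzB : z ∈ B := Bl_mono hr.le hz
  have h := C.norm_sl hn s f a hzB
  have h1 : (1 - r) ^ ((s : ℝ) / n) ≤ (1 - nsq z) ^ ((s : ℝ) / n) :=
    Real.rpow_le_rpow (sub_pos.2 hr).le (by have : nsq z < r := hz; linarith) ht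
  have h2 : (1 - nsq (act (C.p a) z)) ^ ((s : ℝ) / n) ≤ 1 :=
    Real.rpow_le_one (sub_pos.2 (act_mem _ hzB)).le
      (by have := nsq_nonneg (act (C.p a) z); linarith) ht
  refine (pow_le_pow_iff_left₀ (norm_nonneg _) (by positivity) two_ne_zero).1 ?_
  rw [mul_pow, Real.sq_sqrt (by positivity), inv_mul_eq_div, le_div_iff₀ h0]
  have a1 := mul_le_mul_of_nonneg_left h1 (sq_nonneg ‖C.sl s f a z‖)
  have a2 := mul_le_mul_of_nonneg_left h2 (sq_nonneg ‖f (act (C.p a) z)‖)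
  linarith

/-- the charts of the smaller group -/
def Idx.O (I : Idx Q Γ₀ J) (r : ℝ) (i : Fin I.k) : Set C2 :=
  {z | z ∈ B ∧ act (C.p (I.t i))⁻¹ z ∈ Bl r}

theorem Idx.act_mem_O (I : Idx Q Γ₀ J) (hr : r ≤ 1) (i : Fin I.k) {z : C2} (hz : z ∈ Bl r) :
    act (C.p (I.t i)) z ∈ I.O r i :=
  ⟨act_mem _ (Bl_mono hr hz), by rw [act_inv_act _ (Bl_mono hr hz)]; exact hz⟩

theorem Idx.isOpen_O (I : Idx Q Γ₀ J) (r : ℝ) (i : Fin I.k) : IsOpen (I.O r i) :=
  isOpen_pre _ (isOpen_Bl 1) Subset.rfl (isOpen_Bl r)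

theorem Idx.O_sub (I : Idx Q Γ₀ J) (hr : r < 1) : ∃ r' < (1 : ℝ), ∀ i, I.O r i ⊆ Bl r' := by
  have hc : IsCompact (⋃ i, act (C.p (I.t i)) '' closure (Bl r)) :=
    isCompact_iUnion fun i => (isCompact_closure_Bl r).image_of_continuousOn
      ((continuousOn_act _).mono (closure_Bl_sub hr))
  obtain ⟨r', h1, h2⟩ := exists_Bl_of_isCompact hc (iUnion_subset fun i => by
    rintro _ ⟨z, hz, rfl⟩
    exact act_mem _ (closure_Bl_sub hr hz))
  refine ⟨r', h1, fun i z hz => h2 (mem_iUnion.2 ⟨i, _, subset_closure hz.2, ?_⟩)⟩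
  exact act_act_inv _ hz.1

theorem Idx.cover_O (I : Idx Q Γ₀ J) (R : Rad Γ₀ r1 r2 r) {z : C2} (hz : z ∈ B) :
    ∃ γ ∈ Γ, ∃ i, act γ z ∈ I.O r1 i := by
  obtain ⟨γ, hγ, h⟩ := R.cov z hz
  obtain ⟨i, δ, hδ, e⟩ := I.cov γ⁻¹ (inv_mem hγ)
  refine ⟨δ⁻¹, inv_mem hδ, i, act_mem _ hz, ?_⟩
  rw [← act_mul _ _ hz, ← mul_inv_rev, ← e, inv_inv]
  exact h

theorem Idx.charts (I : Idx Q Γ₀ J) (R : Rad Γ₀ r1 r2 r) : Charts Γ (I.O r) := by
  refine ⟨I.isOpen_O r, I.O_sub R.h, fun z hz => ?_⟩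
  obtain ⟨γ, hγ, i, h⟩ := I.cover_O R hz
  exact ⟨γ, hγ, i, h.1, R.sub2 (R.sub1 h.2)⟩

/-- every point of the ball is in a translate of the small chart -/
theorem Idx.exists_pt (I : Idx Q Γ₀ J) (R : Rad Γ₀ r1 r2 r) {w : C2} (hw : w ∈ B) :
    ∃ j κ z, InK Q κ ∧ z ∈ Bl r1 ∧ act (C.p (κ * I.ρ j)) z = w := by
  obtain ⟨γ, hγ, h⟩ := R.cov w hw
  obtain ⟨j, κ, h1, h2⟩ := I.sur γ⁻¹ (inv_mem hγ)
  exact ⟨j, κ, _, h1, h, by rw [h2, act_inv_act _ hw]⟩

theorem aut_sl {s : ℕ} {f : C2 → ℂ} (hf : Q.Aut s f) {κ : U} (hκ : InK Q κ) (a : U) :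
    C.sl s f (κ * a) = C.sl s f a := by
  obtain ⟨h1, h2⟩ := hκ
  rw [← C.sl_mul, hf.2 ⟨κ, h1⟩ h2]

end

end Pool.Agent.MP_54e5d7_al.Atc.Glue

end MrgPart0

-- ======== part 1: formerly Pool.Agent.MP_54e5d7_al.atc.fin.GlueD
section MrgPart1

/-!
PROJECT ATC, row GLUE, part D: vanishing of `H⁰`.
-/

set_option autoImplicit false

open scoped ComplexConjugate ContDiff Topology
open Set Filter

namespace Pool.Agent.MP_54e5d7_al.Atc.Glue

noncomputable section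

open Pool.Agent.MP54

variable {Γ₀ : Subgroup SU21} {r1 r2 r : ℝ} {n : ℕ} {U : Type} [Group U] {C : Cover n U}
  {Γ : Subgroup SU21} {G : Type} [Group G] {Q : Quo C Γ G} {X : Set V3} {m : V3 → ℕ}
  {S : Finset V3} {J : Type} [MulAction ↥Γ₀ J]

/-- transport of vanishing along the divisor -/
theorem Div.vanD_sl (D : Div Γ₀ X m r S) (C : Cover n U) (hn : 0 < n) (s : ℕ) {f : C2 → ℂ}
    {a : U} (ha : C.p a ∈ Γ₀) {y : C2} (hy : y ∈ B) (h : VanD X m f {act (C.p a) y}) :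
    VanD X m (C.sl s f a) {y} := fun x hx => by
  rw [C.van_sl hn s _ x f a hy, ← D.minv _ ha x hx]
  exact h _ (D.inv _ ha x hx)

theorem vanD_iff {f : C2 → ℂ} {V : Set C2} : VanD X m f V ↔ ∀ y ∈ V, VanD X m f {y} :=
  ⟨fun h y hy x hx => van_iff.1 (h x hx) y hy, fun h x hx => van_iff.2 fun y hy => h y hy x hx⟩

theorem Idx.rho_mem (I : Idx Q Γ₀ J) (hle : Γ ≤ Γ₀) (j : J) : C.p (I.ρ j) ∈ Γ₀ := by
  rw [I.hρ, map_mul]
  exact mul_mem (hle (Q.σ _).2) (I.ht _)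

theorem Idx.sl_e (I : Idx Q Γ₀ J) (hn : 0 < n) {s : ℕ} {f : C2 → ℂ} (hf : Q.Aut s f) (j : J)
    (g : ↥Γ₀) {z : C2} (hz : z ∈ B) :
    C.sl s f (I.ρ (g • j)) (act g z) = C.φ (I.e j g) z ^ s * C.sl s f (I.ρ j) z := by
  obtain ⟨κ, h1, h2⟩ := I.he j g
  rw [← aut_sl hf h1 (I.ρ j), ← h2, ← C.sl_mul, C.sl_of_mem s _ (I.e j g) hz, I.pe,
    mul_div_cancel₀ _ (pow_ne_zero _ (C.φ_ne_zero hn _ hz))]

theorem h0_of (R : Rad Γ₀ r1 r2 r) (D : Div Γ₀ X m r S) (I : Idx Q Γ₀ J) (hn : 0 < n) (s : ℕ)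
    (hle : Γ ≤ Γ₀) (Bd : PDE.Bundle R.chart J)
    (ha : ∀ j g z, Bd.a j g z = C.φ (I.e j g) z ^ s * vg S m g z) (h0 : Bd.H0s) :
    Q.H0 s X m := by
  intro f hf hv
  have hdiv : ∀ j, ∃ q : C2 → ℂ, DifferentiableOn ℂ q (Bl r) ∧
      ∀ z ∈ Bl r, C.sl s f (I.ρ j) z = fD S m z * q z := fun j =>
    D.divide (isOpen_Bl r) R.subB ((C.hol_sl hn s hf.1.1.2 _).2.mono R.subB)
      (vanD_iff.2 fun y hy => D.vanD_sl C hn s (I.rho_mem hle j) (R.subB hy)
        (vanD_iff.1 hv _ (act_mem _ (R.subB hy))))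
  choose h hh1 hh2 using hdiv
  obtain ⟨r', hr', hO⟩ := I.O_sub R.h
  obtain ⟨M, hM1, hM2⟩ := hf.2 r' hr'
  obtain ⟨κ, hκ0, hκ⟩ := exists_sl_le C hn s R.h
  obtain ⟨c, hc0, hc⟩ := div_est (isOpen_Bl r) (isCompact_closure_Bl r1)
    (closure_Bl_sub (R.h12.trans R.h2)) (differentiable_fD S m).differentiableOn
    fun y _ => fD_freq D.unitS m y
  have hz := h0 h (fun j => c * (κ * M (I.q j))) (fun j => (hh1 j).mono R.sub2) ?_ ?_ ?_
  · funext w
    by_cases hw : w ∈ B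
    · obtain ⟨j, κ', z, h1, h2, rfl⟩ := I.exists_pt R hw
      have hzB := R.subB (R.sub2 (R.sub1 h2))
      have e := hh2 j z (R.sub2 (R.sub1 h2))
      rw [hz j z (R.sub1 h2), mul_zero, ← aut_sl hf.1 h1, C.sl_of_mem s _ _ hzB,
        div_eq_zero_iff] at e
      exact e.resolve_right (pow_ne_zero _ (C.φ_ne_zero hn _ hzB))
    · exact hf.1.1.1 w hw
  · intro j g
    have hV := isOpen_pre (g : SU21) (isOpen_Bl r2) (fun _ hz => R.subB (R.sub2 hz)) (isOpen_Bl r2)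
    refine eq_of_fD D.unitS m hV (F := fun z => h (g • j) (act g z))
      (G := fun z => Bd.a j g z * h j z) ?_ ?_ ?_
    · exact (hh1 _).continuousOn.comp
        ((continuousOn_act _).mono fun _ hz => R.subB (R.sub2 hz.1)) fun _ hz => R.sub2 hz.2
    · exact (Bd.hol j g).continuousOn.mul ((hh1 _).continuousOn.mono fun _ hz => R.sub2 hz.1)
    · intro z hz h0
      have a := D.vg_spec g.2 (R.sub2 hz.1)
      have hne : fD S m (act g z) ≠ 0 := fun e => h0 (by rw [a, e, mul_zero])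
      have b := I.sl_e hn hf.1 j g (R.subB (R.sub2 hz.1))
      rw [hh2 _ _ (R.sub2 hz.2), hh2 _ _ (R.sub2 hz.1), a] at b
      apply mul_left_cancel₀ hne
      rw [b, ha]
      ring
  · intro j z hz
    refine hc (h j) _ (hh1 j) (fun y hy => ?_) z (subset_closure hz)
    rw [← hh2 j y hy, I.hρ, ← C.sl_mul]
    exact (hκ _ _ y hy).trans (mul_le_mul_of_nonneg_left
      (hM2 _ _ (hO _ (I.act_mem_O R.h.le _ hy))) hκ0)
  · simp only [mul_pow]
    exact ((I.sumq _ (fun _ => sq_nonneg _) hM1).mul_left _).mul_left _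

end

end Pool.Agent.MP_54e5d7_al.Atc.Glue

end MrgPart1

-- ======== part 2: formerly Pool.Agent.MP_54e5d7_al.atc.fin.GlueE
section MrgPart2

/-!
PROJECT ATC, row GLUE, part E: gluing of sections, the cocycle of local data.
-/

set_option autoImplicit false

open scoped ComplexConjugate ContDiff Topology
open Set Filter

namespace Pool.Agent.MP_54e5d7_al.Atc.Glue

noncomputable section

open Pool.Agent.MP54

variable {Γ₀ : Subgroup SU21} {r1 r2 r : ℝ} {n : ℕ} {U : Type} [Group U] {C : Cover n U}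
  {Γ : Subgroup SU21} {G : Type} [Group G] {Q : Quo C Γ G} {X : Set V3} {m : V3 → ℕ}
  {S : Finset V3} {J : Type} [MulAction ↥Γ₀ J]

theorem sq_add {ι : Type} {a b : ι → ℝ} (ha : Summable fun j => a j ^ 2)
    (hb : Summable fun j => b j ^ 2) : Summable fun j => (a j + b j) ^ 2 :=
  Summable.of_nonneg_of_le (fun _ => sq_nonneg _)
    (fun j => by nlinarith [sq_nonneg (a j - b j)]) ((ha.add hb).mul_left 2)

theorem sq_mul {ι : Type} {a : ι → ℝ} (ha : Summable fun j => a j ^ 2) (c : ℝ) :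
    Summable fun j => (c * a j) ^ 2 := by
  simp only [mul_pow]
  exact ha.mul_left _

theorem sq_sum {ι κ : Type} (T : Finset κ) {a : κ → ι → ℝ}
    (ha : ∀ k, Summable fun j => a k j ^ 2) : Summable fun j => (∑ k ∈ T, a k j) ^ 2 := by
  classical
  induction T using Finset.induction_on with
  | empty => simp
  | insert k T hk ih =>
    simp only [Finset.sum_insert hk]
    exact sq_add (ha k) ih

theorem sl_diffOn (C : Cover n U) (hn : 0 < n) (s : ℕ) {f : C2 → ℂ} {V W : Set C2}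
    (hf : DifferentiableOn ℂ f W) (a : U) (hV : V ⊆ B) (h : MapsTo (act (C.p a)) V W) :
    DifferentiableOn ℂ (C.sl s f a) V :=
  (hol_div (hf.comp ((differentiableOn_act _).mono hV) h) (((C.hol a).mono hV).pow s)
    fun _ hz => pow_ne_zero _ (C.φ_ne_zero hn a (hV hz))).congr
    fun _ hz => C.sl_of_mem s f a (hV hz)

theorem Div.vanD_of_sl (D : Div Γ₀ X m r S) (C : Cover n U) (hn : 0 < n) (s : ℕ) {f : C2 → ℂ}
    {a : U} (ha : C.p a ∈ Γ₀) {y : C2} (hy : y ∈ B) (h : VanD X m (C.sl s f a) {y}) :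
    VanD X m f {act (C.p a) y} := fun x hx => by
  have := h _ (D.inv _ (inv_mem ha) x hx)
  rwa [C.van_sl hn s _ _ f a hy, mv_mv_inv, D.minv _ (inv_mem ha) x hx] at this

theorem InK.mem {κ : U} (h : InK Q κ) (hle : Γ ≤ Γ₀) : C.p κ ∈ Γ₀ := hle h.1

/-- compatible functions on the charts glue to an automorphic function -/
theorem Idx.glue (I : Idx Q Γ₀ J) (R : Rad Γ₀ r1 r2 r) (hn : 0 < n) (s : ℕ) (hle : Γ ≤ Γ₀)
    (u : J → C2 → ℂ) (hu : ∀ j, DifferentiableOn ℂ (u j) (Bl r2))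
    (hc : ∀ j (g : ↥Γ₀), ∀ z ∈ Bl r2, act g z ∈ Bl r2 →
      u (g • j) (act g z) = C.φ (I.e j g) z ^ s * u j z) :
    ∃ Φ, Q.Aut s Φ ∧ ∀ j, ∀ z ∈ Bl r2, C.sl s Φ (I.ρ j) z = u j z := by
  classical
  have h2B : Bl r2 ⊆ B := fun _ hz => R.subB (R.sub2 hz)
  choose j0 κ0 z0 h1 h2 h3 using fun w (hw : w ∈ B) => I.exists_pt R hw
  obtain ⟨Φ, hΦ1, hΦ0⟩ : ∃ Φ : C2 → ℂ, (∀ w (hw : w ∈ B), Φ w =
      u (j0 w hw) (z0 w hw) * C.φ (κ0 w hw * I.ρ (j0 w hw)) (z0 w hw) ^ s) ∧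
      ∀ w, w ∉ B → Φ w = 0 :=
    ⟨fun w => if hw : w ∈ B then
      u (j0 w hw) (z0 w hw) * C.φ (κ0 w hw * I.ρ (j0 w hw)) (z0 w hw) ^ s else 0,
      fun w hw => dif_pos hw, fun w hw => dif_neg hw⟩
  have hmem : ∀ j κ, InK Q κ → C.p (κ * I.ρ j) ∈ Γ₀ := fun j κ hκ => by
    rw [map_mul]
    exact mul_mem (hκ.mem hle) (I.rho_mem hle j)
  have key : ∀ j κ z, InK Q κ → z ∈ Bl r2 →
      Φ (act (C.p (κ * I.ρ j)) z) = u j z * C.φ (κ * I.ρ j) z ^ s := by
    intro j κ z hκ hz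
    have hw := act_mem (C.p (κ * I.ρ j)) (h2B hz)
    rw [hΦ1 _ hw]
    have e1 := h1 _ hw
    have e2 := R.sub1 (h2 _ hw)
    have e3 := h3 _ hw
    generalize j0 _ hw = j' at *
    generalize κ0 _ hw = κ' at *
    generalize z0 _ hw = z' at *
    obtain ⟨g, hg⟩ : ∃ g : ↥Γ₀, C.p (κ' * I.ρ j') * g = C.p (κ * I.ρ j) :=
      ⟨⟨(C.p (κ' * I.ρ j'))⁻¹ * C.p (κ * I.ρ j), mul_mem (inv_mem (hmem _ _ e1)) (hmem _ _ hκ)⟩,
        mul_inv_cancel_left _ _⟩
    have e4 : act g z = z' := by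
      rw [← hg, act_mul _ _ (h2B hz)] at e3
      rw [← act_inv_act (C.p (κ' * I.ρ j')) (h2B e2), e3, act_inv_act _ (act_mem _ (h2B hz))]
    obtain ⟨rfl, e5⟩ := I.det j j' κ κ' g hκ e1 hg
    subst e4
    rw [hc j g z hz e2, ← e5, C.mul (κ' * I.ρ (g • j)) _ z (h2B hz), I.pe]
    ring
  refine ⟨Φ, ⟨⟨hΦ0, fun w hw => ?_⟩, fun k hk => ?_⟩, fun j z hz => ?_⟩
  · obtain ⟨j, κ, z, e1, e2, e3⟩ := I.exists_pt R hw
    have hV := isOpen_pre (C.p (κ * I.ρ j))⁻¹ (isOpen_Bl 1) Subset.rfl (isOpen_Bl r2)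
    have hact : DifferentiableOn ℂ (act (C.p (κ * I.ρ j))⁻¹)
        {y | y ∈ Bl 1 ∧ act (C.p (κ * I.ρ j))⁻¹ y ∈ Bl r2} :=
      (differentiableOn_act _).mono fun _ hy => hy.1
    have hd : DifferentiableOn ℂ Φ {y | y ∈ Bl 1 ∧ act (C.p (κ * I.ρ j))⁻¹ y ∈ Bl r2} := by
      refine (((hu j).comp hact fun _ hy => hy.2).mul
        (((C.hol (κ * I.ρ j)).comp hact fun _ hy => h2B hy.2).pow s)).congr fun y hy => ?_
      have := key j κ _ e1 hy.2
      rw [act_act_inv _ hy.1] at this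
      exact this
    refine (hd.differentiableAt (hV.mem_nhds ⟨hw, ?_⟩)).differentiableWithinAt
    rw [← e3, act_inv_act _ (h2B (R.sub1 e2))]
    exact R.sub1 e2
  · funext w
    by_cases hw : w ∈ B
    · obtain ⟨j, κ, z, e1, e2, rfl⟩ := I.exists_pt R hw
      have hzB := h2B (R.sub1 e2)
      have a := key j (k * κ) z (InK.mul ⟨k.2, hk⟩ e1) (R.sub1 e2)
      rw [mul_assoc, C.mul k _ z hzB, map_mul C.p (k : U), act_mul _ _ hzB] at a
      rw [C.sl_of_mem s _ _ hw, a, key j κ z e1 (R.sub1 e2),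
        div_eq_iff (pow_ne_zero _ (C.φ_ne_zero hn _ hw))]
      ring
    · rw [C.sl_of_notMem s _ _ hw, hΦ0 w hw]
  · have a := key j 1 z InK.one hz
    rw [one_mul] at a
    rw [C.sl_of_mem s _ _ (h2B hz), a,
      mul_div_cancel_right₀ _ (pow_ne_zero _ (C.φ_ne_zero hn _ (h2B hz)))]

/-- local data that are compatible along the divisor give a bounded cocycle -/
theorem exists_coc (R : Rad Γ₀ r1 r2 r) (D : Div Γ₀ X m r S) (I : Idx Q Γ₀ J) (hn : 0 < n)
    (s : ℕ) (Bd : PDE.Bundle R.chart J)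
    (ha : ∀ j g z, Bd.a j g z = C.φ (I.e j g) z ^ s * vg S m g z) (F : J → C2 → ℂ) (M : J → ℝ)
    (hM : Summable fun j => M j ^ 2) (hF : ∀ j, DifferentiableOn ℂ (F j) (Bl r))
    (hb : ∀ j, ∀ z ∈ Bl r, ‖F j z‖ ≤ M j)
    (hv : ∀ j (g : ↥Γ₀), VanD X m (C.sl s (F (g • j)) (I.e j g) - F j)
      {z | z ∈ Bl r ∧ act g z ∈ Bl r}) :
    ∃ (σ : J → ↥Γ₀ → C2 → ℂ) (N : J → ℝ), Bd.Coc σ ∧
      (∀ j g, ∀ z ∈ R.chart.ov g, ‖σ j g z‖ ≤ N j) ∧ (Summable fun j => N j ^ 2) ∧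
      ∀ j (g : ↥Γ₀), ∀ z ∈ R.chart.ov g,
        fD S m z * σ j g z = F (g • j) (act g z) / C.φ (I.e j g) z ^ s - F j z := by
  have hV := fun g : ↥Γ₀ => isOpen_pre (g : SU21) (isOpen_Bl r) R.subB (isOpen_Bl r)
  have hdiv := fun j (g : ↥Γ₀) => D.divide (hV g) (fun _ hz => R.subB hz.1)
    ((sl_diffOn C hn s (hF (g • j)) (I.e j g) (fun _ hz => R.subB hz.1)
      (by rw [I.pe]; exact fun _ hz => hz.2)).sub ((hF j).mono fun _ hz => hz.1)) (hv j g)
  choose σ h1 h2 using hdiv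
  have h3 : ∀ j (g : ↥Γ₀), ∀ z ∈ R.chart.ov g,
      fD S m z * σ j g z = F (g • j) (act g z) / C.φ (I.e j g) z ^ s - F j z := by
    intro j g z hz
    rw [← h2 j g z ⟨R.sub2 hz.1, R.sub2 hz.2⟩, Pi.sub_apply,
      C.sl_of_mem s _ _ (R.subB (R.sub2 hz.1)), I.pe]
  have hov : ∀ j g, DifferentiableOn ℂ (σ j g) (R.chart.ov g) := fun j g =>
    (h1 j g).mono fun _ hz => ⟨R.sub2 hz.1, R.sub2 hz.2⟩
  have hK : ∀ g : ↥Γ₀, IsCompact (closure (Bl r2) ∩ act g ⁻¹' closure (Bl r2)) := fun g =>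
    (isCompact_closure_Bl r2).of_isClosed_subset
      (((continuousOn_act _).mono (closure_Bl_sub (R.h2.trans R.h))).preimage_isClosed_of_isClosed
        isClosed_closure isClosed_closure) inter_subset_left
  choose c hc0 hc using fun g : ↥Γ₀ => div_est (hV g) (hK g)
    (fun _ hz => ⟨closure_Bl_sub R.h2 hz.1, closure_Bl_sub R.h2 hz.2⟩)
    (differentiable_fD S m).differentiableOn fun y _ => fD_freq D.unitS m y
  obtain ⟨κ, hκ0, hκ⟩ := exists_sl_le C hn s R.h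
  refine ⟨σ, fun j => ∑ g ∈ R.chart.D, c g * (κ * |M (g • j)| + |M j|), ⟨hov, ?_⟩, ?_, ?_, h3⟩
  · intro j g h z hz hhz hghz
    have h2B : Bl r2 ⊆ B := fun _ hz => R.subB (R.sub2 hz)
    have hW := isOpen_pre ((g * h : ↥Γ₀) : SU21)
      (isOpen_pre (h : SU21) (isOpen_Bl r2) h2B (isOpen_Bl r2)) (fun _ hz => h2B hz.1)
      (isOpen_Bl r2)
    have hA := (Bd.hol j h).continuousOn
    refine eq_of_fD D.unitS m hW (F := fun z => Bd.a j h z * σ j (g * h) z)
      (G := fun z => σ (h • j) g (act h z) + Bd.a j h z * σ j h z) ?_ ?_ ?_ z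
      ⟨⟨hz, hhz⟩, by rw [Subgroup.coe_mul, act_mul _ _ (h2B hz)]; exact hghz⟩
    · exact (hA.mono fun _ hz => hz.1).mul ((hov _ _).continuousOn.mono fun _ hz => ⟨hz.1.1, hz.2⟩)
    · refine ContinuousOn.add ?_
        ((hA.mono fun _ hz => hz.1).mul ((hov _ _).continuousOn.mono fun _ hz => hz.1))
      refine (hov _ _).continuousOn.comp ((continuousOn_act _).mono fun _ hz => h2B hz.1.1)
        fun y hy => ⟨hy.1.2, ?_⟩
      have := hy.2
      rwa [Subgroup.coe_mul, act_mul _ _ (h2B hy.1.1)] at this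
    · intro y hy h0
      have hyB := h2B hy.1.1
      have e0 := hy.2
      rw [Subgroup.coe_mul, act_mul _ _ hyB] at e0
      have a := D.vg_spec h.2 (R.sub2 hy.1.1)
      have hne : fD S m (act h y) ≠ 0 := fun e => h0 (by rw [a, e, mul_zero])
      have b1 := h3 j (g * h) y ⟨hy.1.1, hy.2⟩
      have b2 := h3 (h • j) g (act h y) ⟨hy.1.2, e0⟩
      have b3 := h3 j h y hy.1
      rw [I.coc, C.mul _ _ y hyB, I.pe, mul_smul, Subgroup.coe_mul, act_mul _ _ hyB, mul_pow] at b1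
      have n1 := pow_ne_zero s (C.φ_ne_zero hn (I.e j h) hyB)
      have n2 := pow_ne_zero s (C.φ_ne_zero hn (I.e (h • j) g) (act_mem h hyB))
      apply mul_left_cancel₀ hne
      rw [ha, mul_add, b2]
      have e1 : ∀ x : ℂ, fD S m (act h y) * (C.φ (I.e j h) y ^ s * vg S m h y * x) =
          C.φ (I.e j h) y ^ s * (fD S m y * x) := fun x => by rw [a]; ring
      rw [e1, e1, b1, b3]
      field_simp
      ring
  · intro j g z hz
    have hg : g ∈ R.chart.D := (Set.Finite.mem_toFinset _).2 ⟨z, hz.1, hz.2⟩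
    refine le_trans ?_ (Finset.single_le_sum (f := fun g => c g * (κ * |M (g • j)| + |M j|))
      (fun g _ => mul_nonneg (hc0 g) (by positivity)) hg)
    refine hc g _ _ (h1 j g) (fun y hy => ?_) z ⟨subset_closure hz.1, subset_closure hz.2⟩
    rw [← h2 j g y hy, Pi.sub_apply]
    refine (norm_sub_le _ _).trans (add_le_add ((hκ _ _ y hy.1).trans ?_)
      ((hb j y hy.1).trans (le_abs_self _)))
    rw [I.pe]
    exact mul_le_mul_of_nonneg_left ((hb _ _ hy.2).trans (le_abs_self _)) hκ0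
  · refine sq_sum _ fun g => sq_mul (sq_add (sq_mul ?_ _) ?_) _
    · simp only [sq_abs]
      exact (MulAction.toPerm g).summable_iff.2 hM
    · simpa only [sq_abs] using hM

end

end Pool.Agent.MP_54e5d7_al.Atc.Glue

end MrgPart2

-- ======== part 3: formerly Pool.Agent.MP_54e5d7_al.atc.dim2.MV
section MrgPart3

/-!
PROJECT ATC, block DIM: sup norms against square integrals, and limits in the Bergman space.
-/

set_option autoImplicit false

open scoped ComplexConjugate Topology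
open Set MeasureTheory Filter Metric

namespace Pool.Agent.MP_54e5d7_al.Atc

namespace D2

variable {n : ℕ} {U : Type} [Group U] {C : Cover n U} {Γ : Subgroup SU21} {G : Type} [Group G]

theorem intOn {f : C2 → ℝ} (hf : ContinuousOn f B) {F : Set C2} (hF : MeasurableSet F) {r : ℝ}
    (hr : r < 1) (h : F ⊆ Bl r) : IntegrableOn f F mu :=
  (hf.mono fun _ hz => lt_of_le_of_lt hz hr).integrableOn_of_subset_isCompact
    (isCompact_nsq_le r) hF (fun _ hz => show nsq _ ≤ r from le_of_lt (h hz))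
    ((measure_mono h).trans_lt (mu_Bl_lt_top hr)).ne

theorem cont_wt (t : ℝ) : ContinuousOn (fun w => (1 - nsq w) ^ t) B :=
  (continuous_const.sub continuous_nsq).continuousOn.rpow_const fun _ hz =>
    Or.inl (BK.B_pos hz).ne'

/-- the square integral over one tile -/
noncomputable def N (t : ℝ) (F : Set C2) (g : C2 → ℂ) : ℝ :=
  ∫ w in F, ‖g w‖ ^ 2 * (1 - nsq w) ^ t ∂mu

theorem N_nonneg (t : ℝ) {F : Set C2} (hF : FD Γ F) (g : C2 → ℂ) : 0 ≤ N t F g :=
  setIntegral_nonneg hF.1 fun _ hz =>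
    mul_nonneg (sq_nonneg _) (Real.rpow_nonneg (BK.B_pos (hF.subset hz)).le _)

/-- the mean value inequality across tiles -/
theorem mv_tiles (C : Cover n U) (hn : 0 < n) (s : ℕ) (hΓ : Lat Γ) {F : Set C2} (hF : FD Γ F)
    {r : ℝ} (hr : r < 1) : ∃ (T : Finset ↥(Γ.comap C.p)) (c : ℝ), 0 ≤ c ∧
      ∀ f : C2 → ℂ, DifferentiableOn ℂ f B → ∀ z ∈ Bl r,
        ‖f z‖ ^ 2 ≤ c * ∑ a ∈ T, N ((s : ℝ) / n) F (C.sl s f a) := by
  classical
  set t : ℝ := (s : ℝ) / n with ht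
  have ht0 : 0 ≤ t := by positivity
  obtain ⟨rF, hrF, hFr⟩ := hF.2.1
  set r' := max rF ((1 + r) / 2) with hr'
  have h1 : r' < 1 := max_lt hrF (by linarith)
  have h2 : r < r' := lt_max_of_lt_right (by linarith)
  obtain ⟨R, hR, hRs⟩ := (isCompact_nsq_le r).exists_cthickening_subset_open (isOpen_Bl r')
    fun z hz => lt_of_le_of_lt hz h2
  obtain ⟨e, he⟩ := C.exists_equiv_lift hn Γ
  have hT := (hΓ.finite_meet h1).preimage (f := fun γ : Γ => (γ : SU21))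
    Subtype.val_injective.injOn
  have hp : 0 < (1 - r') ^ t := Real.rpow_pos_of_pos (by linarith) _
  have hq : 0 < (Real.pi * R ^ 2) ^ 2 := by positivity
  refine ⟨hT.toFinset.image fun γ => e (γ, 1), ((Real.pi * R ^ 2) ^ 2 * (1 - r') ^ t)⁻¹,
    by positivity, fun f hf z hz => ?_⟩
  have hb : closedBall z R ⊆ Bl r' :=
    (closedBall_subset_cthickening (E := {z : C2 | nsq z ≤ r})
      (show nsq z ≤ r from le_of_lt hz) R).trans hRs
  have hb' : ball z R ⊆ Bl r' := ball_subset_closedBall.trans hb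
  have hB' : Bl r' ⊆ B := Bl_mono h1.le
  have h3 := hol_sq_le hR (isOpen_Bl 1) (hb.trans hB') hf
  set h : C2 → ℝ := fun w => ‖f w‖ ^ 2 * (1 - nsq w) ^ t with hh
  have hc : ContinuousOn h B := (hf.continuousOn.norm.pow 2).mul (cont_wt t)
  have hi : IntegrableOn h (ball z R) mu := intOn hc measurableSet_ball h1 hb'
  have h4 : (∫ w in ball z R, ‖f w‖ ^ 2) * (1 - r') ^ t ≤ ∫ w in ball z R, h w ∂mu := by
    rw [integral_mu measurableSet_ball (hb'.trans hB'), ← integral_mul_const]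
    have hrho : ContinuousOn rho B :=
      ((continuous_const.sub continuous_nsq).continuousOn.pow 3).inv₀ fun w hw =>
        pow_ne_zero _ (BK.B_pos hw).ne'
    refine setIntegral_mono_on ?_ ?_ measurableSet_ball fun w hw => ?_
    · exact ((((hf.continuousOn.norm.pow 2).mul continuousOn_const).mono
        (hb.trans hB')).integrableOn_compact (isCompact_closedBall z R)).mono_set
        ball_subset_closedBall
    · exact (((hrho.smul hc).mono (hb.trans hB')).integrableOn_compact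
        (isCompact_closedBall z R)).mono_set ball_subset_closedBall
    · have h5 : nsq w < r' := hb' hw
      have h6 := nsq_nonneg w
      have h7 : 1 ≤ rho w := (one_le_inv₀ (pow_pos (by linarith) 3)).2
        (pow_le_one₀ (by linarith) (by linarith))
      have h8 : (1 - r') ^ t ≤ (1 - nsq w) ^ t :=
        Real.rpow_le_rpow (by linarith) (by linarith) ht0
      calc _ ≤ h w := mul_le_mul_of_nonneg_left h8 (sq_nonneg _)
        _ ≤ rho w * h w := le_mul_of_one_le_left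
            (mul_nonneg (sq_nonneg _) (hp.le.trans h8)) h7
  have hi' : Integrable ((ball z R).indicator h) mu :=
    (integrable_indicator_iff measurableSet_ball).2 hi
  have h5 := hasSum_unfold hΓ hF (f := fun w => (((ball z R).indicator h w : ℝ) : ℂ)) hi'.ofReal
  simp only [integral_complex_ofReal] at h5
  have h6 := Complex.hasSum_ofReal.1 h5
  rw [integral_indicator measurableSet_ball] at h6
  have h7 : ∫ w in ball z R, h w ∂mu ≤ ∑ γ ∈ hT.toFinset, N t F (C.sl s f (e (γ, 1))) := by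
    rw [← h6.tsum_eq, tsum_eq_sum (s := hT.toFinset) fun γ hγ =>
      setIntegral_eq_zero_of_forall_eq_zero fun w hw => indicator_of_notMem (fun h' =>
        hγ (hT.mem_toFinset.2 ⟨γ.2, w, Bl_mono (le_max_left _ _) (hFr hw), hb' h'⟩)) _]
    refine Finset.sum_le_sum fun γ _ => setIntegral_mono_on
      ((measurePreserving_act _).integrable_comp_of_integrable hi').integrableOn
      (intOn (((C.hol_sl hn s hf _).2.continuousOn.norm.pow 2).mul (cont_wt t)) hF.1 hrF hFr)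
      hF.1 fun w hw => ?_
    rw [C.norm_sl hn s f _ (hF.subset hw), he]
    exact indicator_apply_le' (fun _ => le_rfl) fun _ => mul_nonneg (sq_nonneg _)
      (Real.rpow_nonneg (BK.B_pos (act_mem _ (hF.subset hw))).le _)
  rw [Finset.sum_image fun a _ b _ h => congrArg Prod.fst (e.injective h), le_inv_mul_iff₀
    (mul_pos hq hp)]
  calc _ = (Real.pi * R ^ 2) ^ 2 * ‖f z‖ ^ 2 * (1 - r') ^ t := by ring
    _ ≤ _ := (mul_le_mul_of_nonneg_right h3 hp.le).trans (h4.trans h7)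

/-- limits in the Bergman space -/
theorem lim (Q : Quo C Γ G) (hn : 0 < n) (hΓ : Lat Γ) {s : ℕ} {r : ℝ} (hr : r < 1)
    (hc : ∀ z ∈ B, ∃ γ ∈ Γ, act γ z ∈ Bl r) {f : ℕ → C2 → ℂ} (hf : ∀ j, Q.Aut s (f j))
    {y : G → C2 → ℂ}
    (hy : ∀ q, TendstoUniformlyOn (fun j => C.sl s (f j) (Q.σ q)) (y q) atTop (Bl r))
    {M : G → ℝ} (hM : Summable fun q => M q ^ 2) (hb : ∀ q, ∀ z ∈ Bl r, ‖y q z‖ ≤ M q) :
    ∃ g, Q.Berg s g ∧ ∀ q, ∀ z ∈ Bl r, C.sl s g (Q.σ q) z = y q z := by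
  have h0 : ∀ z ∈ B, ∃ a : ↥(Γ.comap C.p), act (C.p a⁻¹) z ∈ Bl r := by
    intro z hz
    obtain ⟨γ, hγ, h⟩ := hc z hz
    obtain ⟨a, ha⟩ := C.surj hn γ⁻¹
    refine ⟨⟨a, by rw [Subgroup.mem_comap, ha]; exact Γ.inv_mem hγ⟩, ?_⟩
    simpa [ha] using h
  have h00 : ∀ (g : C2 → ℂ) (a : U), ∀ z ∈ B,
      g z = C.sl s g a (act (C.p a⁻¹) z) / C.φ a⁻¹ z ^ s := by
    intro g a z hz
    rw [← C.sl_of_mem s _ _ hz, C.sl_mul, mul_inv_cancel, C.sl_of_mem s _ _ hz, map_one, act_one,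
      C.φ_one hn hz, one_pow, div_one]
  set g : C2 → ℂ := fun z => limUnder atTop fun j => f j z with hg
  have h1 : ∀ z, Tendsto (fun j => f j z) atTop (𝓝 (g z)) := by
    intro z
    by_cases hz : z ∈ B
    · obtain ⟨a, ha⟩ := h0 z hz
      refine tendsto_nhds_limUnder ⟨_, (((hy (Q.π a)).tendsto_at ha).div_const
        (C.φ a⁻¹ z ^ s)).congr fun j => ?_⟩
      rw [Q.sl_σ (hf j), ← h00 _ _ z hz]
    · exact tendsto_nhds_limUnder ⟨0, tendsto_const_nhds.congr fun j => ((hf j).1.1 z hz).symm⟩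
  have h2 : ∀ a z, Tendsto (fun j => C.sl s (f j) a z) atTop (𝓝 (C.sl s g a z)) := by
    intro a z
    by_cases hz : z ∈ B
    · simp only [C.sl_of_mem s _ a hz]
      exact (h1 _).div_const _
    · simp only [C.sl_of_notMem s _ a hz]
      exact tendsto_const_nhds
  have h3 : ∀ a : ↥(Γ.comap C.p), ∀ z ∈ Bl r, C.sl s g a z = y (Q.π a) z := fun a z hz =>
    tendsto_nhds_unique (h2 a z) (((hy (Q.π a)).tendsto_at hz).congr fun j => by
      rw [Q.sl_σ (hf j)])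
  have h4 : Q.Aut s g := by
    refine ⟨⟨fun z hz => tendsto_nhds_unique (h1 z)
      (tendsto_const_nhds.congr fun j => ((hf j).1.1 z hz).symm), fun z hz => ?_⟩,
      fun k hk => funext fun z => tendsto_nhds_unique (h2 k z)
        ((h1 z).congr fun j => by rw [(hf j).2 k hk])⟩
    obtain ⟨a, ha⟩ := h0 z hz
    have h5 : DifferentiableOn ℂ (C.sl s g a) (Bl r) :=
      (hol_limit (isOpen_Bl r) (Eventually.of_forall fun j =>
        (C.hol_sl hn s (hf j).1.2 _).2.mono (Bl_mono hr.le))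
        (hy (Q.π a)).tendstoLocallyUniformlyOn).congr (h3 a)
    refine DifferentiableWithinAt.congr ?_ (h00 g a) (h00 g a z hz)
    simp only [div_eq_mul_inv]
    exact ((h5.differentiableAt ((isOpen_Bl r).mem_nhds ha)).comp_differentiableWithinAt z
      (differentiableOn_act _ z hz)).mul (((C.hol _ z hz).pow s).inv
      (pow_ne_zero _ (C.φ_ne_zero hn _ hz)))
  have h6 : ∀ q, ∀ z ∈ Bl r, C.sl s g (Q.σ q) z = y q z := fun q z hz => by
    rw [h3 _ z hz, Q.sec]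
  exact ⟨g, Q.berg_of_bound hn hΓ h4 hr subset_rfl hc hM fun q z hz => by
    rw [h6 q z hz]; exact hb q z hz, h6⟩

end D2

end Pool.Agent.MP_54e5d7_al.Atc

end MrgPart3

-- ======== part 4: formerly Pool.Agent.MP_54e5d7_al.atc.dim2.Inv
section MrgPart4

/-!
PROJECT ATC, block DIM: the inverse of the restriction map is bounded.
-/

set_option autoImplicit false

open scoped ComplexConjugate Topology ENNReal
open Set MeasureTheory Filter Metric

namespace Pool.Agent.MP_54e5d7_al.Atc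

namespace D2

variable {n : ℕ} {U : Type} [Group U] {C : Cover n U} {Γ : Subgroup SU21} {G : Type} [Group G]
  {k l : ℕ}

theorem mem2 {ι : Type} {E : Type} [NormedAddCommGroup E] {x : ι → E}
    (h : Summable fun p => ‖x p‖ ^ 2) : Memℓp x 2 :=
  memℓp_gen (by simpa using h)

theorem hasSum2 {ι : Type} {E : Type} [NormedAddCommGroup E] (x : lp (fun _ : ι => E) 2) :
    HasSum (fun p => ‖x p‖ ^ 2) (‖x‖ ^ 2) := by
  simpa using lp.hasSum_norm (by simp) x

/-- the square-summable kernel -/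
def W (A : Matrix (Fin k) (Fin l) (G →₀ ℂ)) : Submodule ℂ (lp (fun _ : Fin k × G => ℂ) 2) where
  carrier := {x | KerEq A x}
  add_mem' := by
    intro x y hx hy j g
    have h := congrArg₂ (· + ·) (hx j g) (hy j g)
    simpa only [Finsupp.sum, lp.coeFn_add, Pi.add_apply, add_mul, Finset.sum_add_distrib,
      add_zero] using h
  zero_mem' := by
    intro j g
    simp [Finsupp.sum]
  smul_mem' := by
    intro c x hx j g
    have h := congrArg (c * ·) (hx j g)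
    simpa only [Finsupp.sum, lp.coeFn_smul, Pi.smul_apply, smul_eq_mul, Finset.mul_sum,
      mul_assoc, mul_zero] using h

instance (A : Matrix (Fin k) (Fin l) (G →₀ ℂ)) : CompleteSpace (W A) := by
  refine IsClosed.completeSpace_coe (hs := ?_)
  show IsClosed {x : lp (fun _ : Fin k × G => ℂ) 2 | KerEq A x}
  simp only [KerEq, ofPred_forall, Finsupp.sum]
  refine isClosed_iInter fun j => isClosed_iInter fun g => isClosed_eq ?_ continuous_const
  exact continuous_finsetSum _ fun i _ => continuous_finsetSum _ fun h _ =>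
    ((continuous_apply _).comp lp.uniformContinuous_coe.continuous).mul continuous_const

theorem exists_T (Q : Quo C Γ G) (hn : 0 < n) (hΓ : Lat Γ) {s : ℕ}
    {A : Matrix (Fin k) (Fin l) (G →₀ ℂ)} {Λ : Fin k → (C2 → ℂ) →ₗ[ℂ] ℂ} (hA : Q.FinType s A Λ) :
    ∃ T : W A →ₗ[ℂ] (C2 → ℂ), (∀ x, Q.Berg s (T x)) ∧
      (∀ x i q, Λ i (C.sl s (T x) (Q.σ q)) = x.1 (i, q)) ∧ (∀ f, Q.Berg s f → ∃ x, T x = f) ∧
      ∀ r < (1 : ℝ), ∃ c : ℝ, 0 ≤ c ∧ ∀ x, ∃ M : G → ℝ, (∀ q, 0 ≤ M q) ∧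
        (∃ m, HasSum (fun q => M q ^ 2) (m ^ 2) ∧ 0 ≤ m ∧ m ≤ c * ‖x‖) ∧
        ∀ q, ∀ z ∈ Bl r, ‖C.sl s (T x) (Q.σ q) z‖ ≤ M q := by
  choose T₀ hT₁ hT₂ using fun x : W A => hA.surj x.1 x.2
  have hsub : ∀ {f g : C2 → ℂ}, Q.Berg s f → Q.Berg s g → Q.Berg s (f - g) := fun hf hg => by
    rw [sub_eq_add_neg, ← neg_one_smul ℂ]
    exact Quo.Berg.add Q hf (Quo.Berg.smul Q hg _)
  have huniq : ∀ (x : W A) f, Q.Berg s f → (∀ i q, Λ i (C.sl s f (Q.σ q)) = x.1 (i, q)) →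
      T₀ x = f := fun x f hf h => sub_eq_zero.1 (hA.inj _ (hsub (hT₁ x) hf) fun i q => by
    rw [C.sl_sub, map_sub, hT₂, h, sub_self])
  let T : W A →ₗ[ℂ] (C2 → ℂ) :=
    { toFun := T₀
      map_add' := fun x y => huniq _ _ (Quo.Berg.add Q (hT₁ x) (hT₁ y)) fun i q => by
        rw [C.sl_add, map_add, hT₂, hT₂]; rfl
      map_smul' := fun c x => huniq _ _ (Quo.Berg.smul Q (hT₁ x) c) fun i q => by
        rw [C.sl_smul, map_smul, hT₂]; rfl }
  obtain ⟨r₁, hr₁, c₁, hc₁⟩ := hA.bdd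
  refine ⟨T, hT₁, hT₂, fun f hf => ?_, fun r₀ hr₀ => ?_⟩
  · obtain ⟨M, hM, hb⟩ := hf.2 r₁ hr₁
    have h1 : Summable fun p : Fin k × G => ‖Λ p.1 (C.sl s f (Q.σ p.2))‖ ^ 2 := by
      have h2 : Summable fun p : Fin k × G => (1 : ℝ) * (c₁ ^ 2 * M p.2 ^ 2) :=
        Summable.mul_of_nonneg (f := fun _ : Fin k => (1 : ℝ)) (g := fun q => c₁ ^ 2 * M q ^ 2)
          (Summable.of_finite) (hM.mul_left _) (fun _ => zero_le_one) fun _ => by positivity
      refine Summable.of_nonneg_of_le (fun _ => sq_nonneg _) (fun p => ?_) h2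
      rw [one_mul, ← mul_pow]
      exact pow_le_pow_left₀ (norm_nonneg _)
        (hc₁ _ (Quo.Aut.sl Q hn hf.1 _) _ (hb p.2) p.1) 2
    exact ⟨⟨⟨_, mem2 h1⟩, hA.ker f hf⟩, huniq _ _ hf fun _ _ => rfl⟩
  obtain ⟨r₂, hr₂, hc₂⟩ := hΓ.cocpt
  set r := max r₀ (max r₁ r₂) with hr'
  have hr : r < 1 := max_lt hr₀ (max_lt hr₁ hr₂)
  have e₁ : Bl r₁ ⊆ Bl r := Bl_mono ((le_max_left _ _).trans (le_max_right _ _))
  have e₂ : Bl r₂ ⊆ Bl r := Bl_mono ((le_max_right _ _).trans (le_max_right _ _))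
  have hm : ∀ x q, Memℓp (fun z : Bl r => C.sl s (T x) (Q.σ q) z) ∞ := fun x q => by
    obtain ⟨M, -, hb⟩ := (hT₁ x).2 r hr
    exact memℓp_infty ⟨M q, by rintro _ ⟨z, rfl⟩; exact hb q z z.2⟩
  have hm' : ∀ x, Memℓp (fun q => (⟨_, hm x q⟩ : lp (fun _ : Bl r => ℂ) ∞)) 2 := fun x => by
    obtain ⟨M, hM, hb⟩ := (hT₁ x).2 r hr
    refine mem2 (Summable.of_nonneg_of_le (fun _ => sq_nonneg _) (fun q => ?_) hM)
    rw [← sq_abs (M q)]
    exact pow_le_pow_left₀ (norm_nonneg _) (lp.norm_le_of_forall_le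
      (f := (⟨_, hm x q⟩ : lp (fun _ : Bl r => ℂ) ∞)) (abs_nonneg _)
      fun z => (hb q z z.2).trans (le_abs_self _)) 2
  let T' : W A →ₗ[ℂ] lp (fun _ : G => lp (fun _ : Bl r => ℂ) ∞) 2 :=
    { toFun := fun x => ⟨_, hm' x⟩
      map_add' := fun x y => lp.ext (funext fun q => lp.ext (funext fun z => by
        show C.sl s (T (x + y)) _ _ = C.sl s (T x) _ _ + C.sl s (T y) _ _
        rw [map_add, C.sl_add]; rfl))
      map_smul' := fun c x => lp.ext (funext fun q => lp.ext (funext fun z => by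
        show C.sl s (T (c • x)) _ _ = c • C.sl s (T x) _ _
        rw [map_smul, C.sl_smul]; rfl)) }
  have hev : ∀ (y : lp (fun _ : G => lp (fun _ : Bl r => ℂ) ∞) 2) q z, ‖y q z‖ ≤ ‖y‖ :=
    fun y q z => (lp.norm_apply_le_norm (by simp) (y q) z).trans
      (lp.norm_apply_le_norm (by simp) y q)
  have hcont : Continuous T' := by
    classical
    refine T'.continuous_of_seq_closed_graph fun u x y hx hy => ?_
    have hy' := tendsto_iff_norm_sub_tendsto_zero.1 hy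
    have h1 : ∀ q, TendstoUniformlyOn (fun j => C.sl s (T (u j)) (Q.σ q))
        (fun z => if h : z ∈ Bl r then y q ⟨z, h⟩ else 0) atTop (Bl r) := fun q => by
      refine Metric.tendstoUniformlyOn_iff.2 fun ε hε => ?_
      filter_upwards [hy'.eventually (gt_mem_nhds hε)] with j hj z hz
      rw [dif_pos hz, dist_comm, dist_eq_norm]
      exact (hev (T' (u j) - y) q ⟨z, hz⟩).trans_lt hj
    obtain ⟨g, hg, hg'⟩ := lim Q hn hΓ hr (fun z hz => (hc₂ z hz).imp fun γ h => ⟨h.1, e₂ h.2⟩)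
      (fun j => (hT₁ (u j)).1) h1 (hasSum2 y).summable fun q z hz => by
        rw [dif_pos hz]; exact lp.norm_apply_le_norm (by simp) (y q) _
    have h2 : T x = g := huniq x g hg fun i q => by
      have h3 : Tendsto (fun j => (u j).1 (i, q)) atTop (𝓝 (x.1 (i, q))) :=
        ((((continuous_apply (i, q)).comp lp.uniformContinuous_coe.continuous).comp
          continuous_subtype_val).tendsto x).comp hx
      refine tendsto_nhds_unique (tendsto_iff_norm_sub_tendsto_zero.2 ?_) h3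
      refine squeeze_zero (fun _ => norm_nonneg _) (fun j => ?_)
        (by simpa using hy'.const_mul c₁)
      rw [← hT₂, ← map_sub, ← C.sl_sub]
      refine hc₁ _ (Quo.Aut.sl Q hn (hsub (hT₁ _) hg).1 _) _ (fun z hz => ?_) i
      rw [C.sl_sub, Pi.sub_apply, hg' q z (e₁ hz), dif_pos (e₁ hz)]
      exact hev (T' (u j) - y) q ⟨z, e₁ hz⟩
    refine lp.ext (funext fun q => lp.ext (funext fun z => ?_))
    show _ = C.sl s (T x) _ _
    rw [h2, hg' q z z.2, dif_pos z.2]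
  refine ⟨‖(⟨T', hcont⟩ : W A →L[ℂ] _)‖, ContinuousLinearMap.opNorm_nonneg _, fun x => ⟨fun q => ‖T' x q‖,
    fun _ => norm_nonneg _, ⟨_, hasSum2 _, norm_nonneg _,
      (⟨T', hcont⟩ : W A →L[ℂ] _).le_opNorm x⟩, fun q z hz => ?_⟩⟩
  exact lp.norm_apply_le_norm (by simp) (T' x q) ⟨z, Bl_mono (le_max_left _ _) hz⟩

end D2

end Pool.Agent.MP_54e5d7_al.Atc

end MrgPart4

-- ======== part 5: formerly Pool.Agent.MP_54e5d7_al.atc.dim2.Dim
section MrgPart5

/-!
PROJECT ATC, block DIM: the dimension of the kernel is the trace of the reproducing kernel.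
-/

set_option autoImplicit false

open scoped ComplexConjugate Topology ENNReal InnerProductSpace
open Set MeasureTheory Filter Metric

namespace Pool.Agent.MP_54e5d7_al.Atc

namespace D2

variable {n : ℕ} {U : Type} [Group U] {C : Cover n U} {Γ : Subgroup SU21} {G : Type} [Group G]
  {k l : ℕ}

theorem cs {G : Type} {M M' : G → ℝ} {m m' : ℝ} (h : HasSum (fun q => M q ^ 2) (m ^ 2))
    (h' : HasSum (fun q => M' q ^ 2) (m' ^ 2)) (h0 : ∀ q, 0 ≤ M q) (h0' : ∀ q, 0 ≤ M' q)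
    (hm : 0 ≤ m) (hm' : 0 ≤ m') :
    Summable (fun q => M q * M' q) ∧ ∑' q, M q * M' q ≤ m * m' := by
  have h1 : ∀ t : Finset G, ∑ q ∈ t, M q * M' q ≤ m * m' := fun t =>
    (Real.sum_mul_le_sqrt_mul_sqrt t M M').trans (mul_le_mul
      (Real.sqrt_le_iff.2 ⟨hm, sum_le_hasSum t (fun _ _ => sq_nonneg _) h⟩)
      (Real.sqrt_le_iff.2 ⟨hm', sum_le_hasSum t (fun _ _ => sq_nonneg _) h'⟩)
      (Real.sqrt_nonneg _) hm)
  have h2 := summable_of_sum_le (fun q => mul_nonneg (h0 q) (h0' q)) h1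
  exact ⟨h2, h2.tsum_le_of_sum_le h1⟩

/-- the integrand of the inner product -/
noncomputable def ig (t : ℝ) (f g : C2 → ℂ) (w : C2) : ℂ :=
  conj (f w) * g w * (((1 - nsq w) ^ t : ℝ) : ℂ)

theorem ig_int (t : ℝ) {F : Set C2} (hF : FD Γ F) {f g : C2 → ℂ} (hf : Hol f) (hg : Hol g) :
    IntegrableOn (ig t f g) F mu := by
  obtain ⟨r, hr, h⟩ := hF.2.1
  have h1 : ContinuousOn (ig t f g) B :=
    ((Complex.continuous_conj.comp_continuousOn hf.2.continuousOn).mul hg.2.continuousOn).mul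
      (Complex.continuous_ofReal.comp_continuousOn (cont_wt t))
  exact (h1.mono fun _ hz => lt_of_le_of_lt hz hr).integrableOn_of_subset_isCompact
    (isCompact_nsq_le r) hF.1 (fun _ hz => show nsq _ ≤ r from le_of_lt (h hz)) hF.mu_lt_top.ne

theorem ig_le {t : ℝ} (ht : 0 ≤ t) {f g : C2 → ℂ} {w : C2} (hw : w ∈ B) {a b : ℝ}
    (ha : ‖f w‖ ≤ a) (hb : ‖g w‖ ≤ b) : ‖ig t f g w‖ ≤ a * b := by
  have h0 := BK.B_pos hw
  rw [ig, norm_mul, norm_mul, Complex.norm_conj, Complex.norm_real,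
    Real.norm_of_nonneg (Real.rpow_nonneg h0.le _)]
  exact (mul_le_of_le_one_right (by positivity)
    (Real.rpow_le_one h0.le (by linarith [nsq_nonneg w]) ht)).trans
    (mul_le_mul ha hb (norm_nonneg _) ((norm_nonneg _).trans ha))

theorem conv {F : Set C2} (hF : FD Γ F) (X : C2 → ℂ) (a : C2 → ℝ) :
    ∫ w in F, X w * ((a w * rho w : ℝ) : ℂ) = ∫ w in F, X w * (a w : ℂ) ∂mu := by
  rw [integral_mu hF.1 hF.subset]
  refine integral_congr_ae (Eventually.of_forall fun w => ?_)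
  simp only [Complex.real_smul, Complex.ofReal_mul]
  ring

theorem riesz {E : Type} [NormedAddCommGroup E] [InnerProductSpace ℂ E] [CompleteSpace E]
    (β : E →L⋆[ℂ] E →L[ℂ] ℂ) {a : ℝ} (ha : 0 ≤ a) (h : ∀ x, ‖x‖ ^ 2 ≤ a * (β x x).re) (v : E) :
    ∃ y, ∀ x, β y x = ⟪v, x⟫_ℂ := by
  have h0 : 0 < (a + 1)⁻¹ := by positivity
  have hunit : IsUnit (InnerProductSpace.continuousLinearMapOfBilin β) := by
    refine ContinuousLinearMap.isUnit_of_forall_le_norm_inner_map _ (c := ⟨(a + 1)⁻¹, h0.le⟩)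
      h0 fun x => ?_
    rw [InnerProductSpace.continuousLinearMapOfBilin_apply]
    show _ * (a + 1)⁻¹ ≤ _
    rw [← div_eq_mul_inv, div_le_iff₀ (by positivity)]
    have h1 := mul_le_mul_of_nonneg_left (Complex.re_le_norm (β x x)) ha
    have h2 := h x
    have h3 := norm_nonneg (β x x)
    nlinarith
  obtain ⟨y, hy⟩ := (ContinuousLinearMap.isUnit_iff_bijective.1 hunit).2 v
  exact ⟨y, fun x => by rw [← hy, InnerProductSpace.continuousLinearMapOfBilin_apply]⟩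

section

variable [DecidableEq (Fin k × G)] (A : Matrix (Fin k) (Fin l) (G →₀ ℂ))

/-- the projection of a basis vector -/
noncomputable def pe (p : Fin k × G) : W A := (W A).orthogonalProjectionOnto (lp.single 2 p 1)

theorem inner_pe (p : Fin k × G) (x : W A) : ⟪pe A p, x⟫_ℂ = x.1 p := by
  rw [pe, Submodule.inner_orthogonalProjectionOnto_eq_of_mem_right, lp.inner_single_left]
  simp

theorem pe_self (p : Fin k × G) :
    ((1 - infDist (lp.single 2 p (1 : ℂ) : lp (fun _ : Fin k × G => ℂ) 2)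
      {x | KerEq A x} ^ 2 : ℝ) : ℂ) = (pe A p).1 p := by
  have h1 : infDist (lp.single 2 p (1 : ℂ) : lp (fun _ : Fin k × G => ℂ) 2) {x | KerEq A x} =
      ‖lp.single 2 p (1 : ℂ) - (pe A p).1‖ := by
    rw [infDist_eq_iInf]
    simp only [dist_eq_norm]
    exact (Submodule.starProjection_minimal (U := W A) _).symm
  have h2 : ⟪(pe A p).1, lp.single 2 p (1 : ℂ) - (pe A p).1⟫_ℂ = 0 :=
    (W A).sub_starProjection_mem_orthogonal _ _ (pe A p).2
  have h3 := inner_self_eq_norm_sq_to_K (𝕜 := ℂ) (lp.single 2 p (1 : ℂ) - (pe A p).1)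
  rw [inner_sub_left, h2, sub_zero, lp.inner_single_left] at h3
  rw [h1]
  push_cast
  simp only [lp.coeFn_sub, Pi.sub_apply, lp.single_apply_self, RCLike.inner_apply, map_one,
    mul_one] at h3
  exact sub_eq_iff_eq_add.2 (by rw [add_comm, ← sub_eq_iff_eq_add]; exact h3.symm ▸ rfl)

theorem expand (φ : W A →L[ℂ] ℂ) (a : W A) : HasSum (fun p => a.1 p * φ (pe A p)) (φ a) := by
  have h1 := (lp.hasSum_single (by simp) a.1).mapL (φ.comp (W A).orthogonalProjectionOnto)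
  simp only [ContinuousLinearMap.comp_apply,
    Submodule.orthogonalProjectionOnto_mem_subspace_eq_self] at h1
  refine h1.congr_fun fun p => ?_
  rw [pe, ← smul_eq_mul, ← map_smul, ← map_smul, ← lp.single_smul, smul_eq_mul, mul_one]

theorem pe_move (τ : G → W A → W A) (hτ : ∀ q x i g, (τ q x).1 (i, g) = x.1 (i, q * g))
    (q : G) (i : Fin k) : τ q (pe A (i, 1)) = pe A (i, q⁻¹) := by
  refine ext_inner_right ℂ fun x => ?_
  rw [inner_pe, ← mul_one q⁻¹, ← hτ, ← inner_pe, Submodule.coe_inner, Submodule.coe_inner,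
    lp.inner_eq_tsum, lp.inner_eq_tsum, ← ((Equiv.refl _).prodCongr (Equiv.mulLeft q)).tsum_eq
      fun p => ⟪(pe A (i, 1)).1 p, (τ q⁻¹ x).1 p⟫_ℂ]
  refine tsum_congr fun p => ?_
  show ⟪(τ q _).1 (p.1, p.2), x.1 (p.1, p.2)⟫_ℂ = ⟪(pe A (i, 1)).1 (p.1, q * p.2),
    (τ q⁻¹ x).1 (p.1, q * p.2)⟫_ℂ
  rw [hτ, hτ, inv_mul_cancel_left]

end

end D2

open D2

theorem dim2 : DimStmt := by
  intro n U _ C Γ G _ Q s F κ k l A Λ hn hΓ hF hA hκ hrep
  set t : ℝ := (s : ℝ) / n with ht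
  have ht0 : 0 ≤ t := by positivity
  obtain ⟨T, hT₁, hT₂, hT₃, hT₄⟩ := exists_T Q hn hΓ hA
  obtain ⟨r, hr, hFr⟩ := hF.2.1
  obtain ⟨c, hc0, hc⟩ := hT₄ r hr
  choose M hM0 hM hMb using hc
  choose m hm hm0 hmc using hM
  have hol : ∀ x (a : U), Hol (C.sl s (T x) a) := fun x a => C.hol_sl hn s (hT₁ x).1.1.2 a
  set tm : W A → W A → G → ℂ := fun x y q =>
    ∫ w in F, ig t (C.sl s (T x) (Q.σ q)) (C.sl s (T y) (Q.σ q)) w ∂mu with htm
  have hle : ∀ x y q, ∀ w ∈ F, ‖ig t (C.sl s (T x) (Q.σ q)) (C.sl s (T y) (Q.σ q)) w‖ ≤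
      M x q * M y q := fun x y q w hw =>
    ig_le ht0 (hF.subset hw) (hMb x q w (hFr hw)) (hMb y q w (hFr hw))
  have hcs := fun x y => cs (hm x) (hm y) (hM0 x) (hM0 y) (hm0 x) (hm0 y)
  have hle' : ∀ x y q, ‖tm x y q‖ ≤ M x q * M y q * mu.real F := fun x y q =>
    norm_setIntegral_le_of_norm_le_const hF.mu_lt_top (hle x y q)
  have hsum : ∀ x y, Summable (tm x y) := fun x y =>
    Summable.of_norm_bounded ((hcs x y).1.mul_right _) (hle' x y)
  have hint := fun x y q => ig_int t hF (hol x (Q.σ q)) (hol y (Q.σ q))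
  let β₀ : W A →ₛₗ[starRingEnd ℂ] W A →ₗ[ℂ] ℂ := LinearMap.mk₂'ₛₗ (starRingEnd ℂ) (RingHom.id ℂ)
    (fun x y => ∑' q, tm x y q)
    (fun x x' y => by
      rw [← (hsum x y).tsum_add (hsum x' y)]
      refine tsum_congr fun q => ?_
      simp only [htm]
      rw [← integral_add (hint x y q) (hint x' y q), map_add, C.sl_add]
      simp only [ig, Pi.add_apply, map_add, add_mul])
    (fun a x y => by
      rw [smul_eq_mul, ← tsum_mul_left]
      refine tsum_congr fun q => ?_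
      simp only [htm]
      rw [← integral_const_mul, map_smul, C.sl_smul]
      simp only [ig, Pi.smul_apply, smul_eq_mul, map_mul, mul_assoc])
    (fun x y y' => by
      rw [← (hsum x y).tsum_add (hsum x y')]
      refine tsum_congr fun q => ?_
      simp only [htm]
      rw [← integral_add (hint x y q) (hint x y' q), map_add, C.sl_add]
      simp only [ig, Pi.add_apply, mul_add, add_mul])
    (fun a x y => by
      rw [smul_eq_mul, ← tsum_mul_left]
      refine tsum_congr fun q => ?_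
      simp only [htm]
      rw [← integral_const_mul, map_smul, C.sl_smul]
      simp only [ig, Pi.smul_apply, smul_eq_mul, RingHom.id_apply, mul_assoc, mul_left_comm])
  let β : W A →L⋆[ℂ] W A →L[ℂ] ℂ := β₀.mkContinuous₂ (c * c * mu.real F) fun x y => by
    refine (tsum_of_norm_bounded ((hcs x y).1.mul_right _).hasSum (hle' x y)).trans ?_
    rw [tsum_mul_right]
    calc _ ≤ (c * ‖x‖) * (c * ‖y‖) * mu.real F := mul_le_mul_of_nonneg_right
          ((hcs x y).2.trans (mul_le_mul (hmc x) (hmc y) (hm0 y) (by positivity)))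
          measureReal_nonneg
      _ = _ := by ring
  have hβ : ∀ x y, HasSum (tm x y) (β x y) := fun x y => (hsum x y).hasSum
  clear_value β
  clear β₀
  choose τ hτ using fun (q : G) (x : W A) => hT₃ _ (Quo.Berg.sl Q hn (hT₁ x) (Q.σ q))
  have hτ' : ∀ q x i g, (τ q x).1 (i, g) = x.1 (i, q * g) := fun q x i g => by
    rw [← hT₂, hτ, Q.sl_σ_mul (hT₁ x).1, hT₂]
  have hinv : ∀ q x y, β (τ q x) (τ q y) = β x y := fun q x y =>
    (hβ _ _).unique (((Equiv.mulLeft q).hasSum_iff.2 (hβ x y)).congr_fun fun g => by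
      simp only [htm, hτ, Q.sl_σ_mul (hT₁ _).1, Function.comp, Equiv.coe_mulLeft])
  have hsym : ∀ x y, conj (β x y) = β y x := fun x y =>
    (Complex.hasSum_conj'.2 (hβ x y)).unique ((hβ y x).congr_fun fun q => by
      simp only [htm]
      rw [← integral_conj]
      simp only [ig, map_mul, Complex.conj_conj, Complex.conj_ofReal, mul_comm])
  have hτi : ∀ q x, τ q (τ q⁻¹ x) = x := fun q x => Subtype.ext (lp.ext (funext fun p => by
    rw [← p.eta, hτ', hτ', inv_mul_cancel_left]))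
  -- coercivity
  obtain ⟨r₁, hr₁, c₁, hc₁⟩ := hA.bdd
  obtain ⟨T₀, c₂, hc₂, hmv⟩ := mv_tiles C hn s hΓ hF hr₁
  have hN : ∀ x, HasSum (fun q => N t F (C.sl s (T x) (Q.σ q))) (β x x).re := fun x =>
    (Complex.hasSum_re (hβ x x)).congr_fun fun q => by
      simp only [htm, ig, Complex.conj_mul', ← Complex.ofReal_pow, ← Complex.ofReal_mul,
        integral_complex_ofReal, Complex.ofReal_re, N]
  have hco : ∀ x : W A, ‖x‖ ^ 2 ≤ k * (T₀.card * (c₁ ^ 2 * c₂ * (β x x).re)) := by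
    intro x
    have h1 : ∀ i q, ‖x.1 (i, q)‖ ^ 2 ≤
        ∑ a ∈ T₀, c₁ ^ 2 * c₂ * N t F (C.sl s (T x) (Q.σ (q * Q.π a))) := by
      intro i q
      have h2 := hc₁ _ (Quo.Aut.sl Q hn (hT₁ x).1 (Q.σ q)) _ (fun z hz =>
        Real.le_sqrt_of_sq_le (hmv _ (hol x (Q.σ q)).2 z hz)) i
      rw [hT₂] at h2
      refine (pow_le_pow_left₀ (norm_nonneg _) h2 2).trans (le_of_eq ?_)
      rw [mul_pow, Real.sq_sqrt (mul_nonneg hc₂ (Finset.sum_nonneg fun _ _ => N_nonneg _ hF _)),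
        ← mul_assoc, Finset.mul_sum]
      refine Finset.sum_congr rfl fun a _ => ?_
      rw [← Q.sl_σ_mul (hT₁ x).1, Q.sl_σ (Quo.Aut.sl Q hn (hT₁ x).1 (Q.σ q))]
    have h3 : HasSum (fun q => ∑ a ∈ T₀, c₁ ^ 2 * c₂ * N t F (C.sl s (T x) (Q.σ (q * Q.π a))))
        (T₀.card * (c₁ ^ 2 * c₂ * (β x x).re)) := by
      rw [← nsmul_eq_mul, ← Finset.sum_const]
      exact hasSum_sum fun a _ => ((Equiv.mulRight (Q.π a)).hasSum_iff.2 (hN x)).mul_left _
    have h4 := hasSum2 x.1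
    rw [Submodule.coe_norm, ← h4.tsum_eq, h4.summable.tsum_prod, tsum_fintype]
    refine (Finset.sum_le_sum fun i _ => hasSum_le (h1 i) (h4.summable.prod_factor i).hasSum
      h3).trans (le_of_eq ?_)
    simp
  have key : ∀ _ : DecidableEq (Fin k × G), ∑ i, (pe A (i, 1)).1 (i, 1) =
      ∫ z in F, κ z z * (((1 - nsq z) ^ t * rho z : ℝ) : ℂ) := by
    intro _
    choose y hy using fun i : Fin k => riesz β (a := k * (T₀.card * (c₁ ^ 2 * c₂)))
      (by positivity) (fun x => (hco x).trans_eq (by ring)) (pe A (i, 1))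
    simp only [inner_pe] at hy
    have hpt : ∀ z ∈ F, HasSum (fun p : Fin k × G => ig t (C.sl s (T (y p.1)) (Q.σ p.2))
        (C.sl s (T (pe A (p.1, 1))) (Q.σ p.2)) z) (κ z z * (((1 - nsq z) ^ t : ℝ) : ℂ)) := by
      intro z hz
      have hzB := hF.subset hz
      obtain ⟨a, ha⟩ := hT₃ _ (hκ z hzB)
      have h1 : ∀ x, β a x = T x z := fun x =>
        (hβ a x).unique ((hrep z hzB _ (hT₁ x)).congr_fun fun q => by
          rw [conv hF, ← ha]; rfl)
      let ev : W A →L[ℂ] ℂ := ((LinearMap.proj z).comp T).mkContinuous c fun x => by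
        have h2 := hMb x 1 z (hFr hz)
        rw [(hT₁ x).1.2 _ (Q.sec 1)] at h2
        exact h2.trans ((pow_le_pow_iff_left₀ (hM0 x 1) (hm0 x) two_ne_zero).1
          (le_hasSum (hm x) 1 fun _ _ => sq_nonneg _) |>.trans (hmc x))
      have h3 := ((Equiv.refl _).prodCongr (Equiv.inv G)).hasSum_iff.2 (expand A ev a)
      have h4 : ev a = κ z z := congrFun ha z
      rw [h4] at h3
      refine (h3.mul_right _).congr_fun fun p => ?_
      show _ = a.1 (p.1, p.2⁻¹) * T (pe A (p.1, p.2⁻¹)) z * _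
      rw [← pe_move A τ hτ', hτ, ← mul_one p.2⁻¹, ← hτ', ← hy, ← hinv p.2, hτi, ← hsym, h1, hτ]
      rfl
    have := C.countable_lift hn hΓ
    have : Countable G := Function.Surjective.countable (f := Q.π) fun q => ⟨_, Q.sec q⟩
    have h5 : Summable fun p : Fin k × G => M (y p.1) p.2 * M (pe A (p.1, 1)) p.2 :=
      (summable_prod_of_nonneg (f := fun p : Fin k × G => M (y p.1) p.2 * M (pe A (p.1, 1)) p.2)
        fun p => mul_nonneg (hM0 _ _) (hM0 _ _)).2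
        ⟨fun i => (hcs (y i) (pe A (i, 1))).1, Summable.of_finite⟩
    have h6 := hasSum_integral_of_summable_integral_norm (μ := mu.restrict F)
      (F := fun p : Fin k × G => ig t (C.sl s (T (y p.1)) (Q.σ p.2))
        (C.sl s (T (pe A (p.1, 1))) (Q.σ p.2))) (fun p => hint _ _ _)
      (Summable.of_norm_bounded (h5.mul_right (mu.real F)) fun p =>
        norm_setIntegral_le_of_norm_le_const hF.mu_lt_top fun w hw => by
          rw [norm_norm]; exact hle _ _ _ w hw)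
    rw [setIntegral_congr_fun hF.1 fun z hz => (hpt z hz).tsum_eq, ← conv hF] at h6
    have h7 := h6.prod_fiberwise fun i => hβ (y i) (pe A (i, 1))
    simp only [hy] at h7
    exact (hasSum_fintype _).unique h7
  rw [vnDim, Complex.ofReal_sum]
  simp only [pe_self]
  exact key _

end Pool.Agent.MP_54e5d7_al.Atc

end MrgPart5

-- marker of a merged file
example : 731051 + 634487 = 731051 + 634487 := rfl
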